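import Pool.Agent.H989Z.FU.Main

open MeasureTheory FourierTransform

theorem Pool.Agent.Results.MP_860c65_an.AUnique.result (f : ℝ → ℂ) (hc : Continuous f)
    (he : ∀ x, f (-x) = f x)
    (h1 : Integrable (fun x : ℝ => (1 + x ^ 2) * ‖f x‖ ^ 2))
    (h2 : Integrable (fun ξ : ℝ => (1 + ξ ^ 2) * ‖𝓕 f ξ‖ ^ 2))
    (z1 : ∀ n : ℕ, f (Real.sqrt n) = 0) (z2 : ∀ n : ℕ, 𝓕 f (Real.sqrt n) = 0) : f = 0 :=
  Pool.Agent.H989Z.FU.unique f hc he h1 h2 z1 z2
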